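import Mathlib

set_option autoImplicit false

open Filter Topology Function

namespace Pool.Agent.SkewBasin

/-- An injective entire map `Φ : ℂ² → ℂ²` cannot have its range in a complex line
`{(x, y) : y = m x}`. -/
theorem no_injective_into_line (m : ℂ) (Φ : ℂ × ℂ → ℂ × ℂ) (hd : Differentiable ℂ Φ)
    (hi : Injective Φ) (hr : ∀ z, (Φ z).2 = m * (Φ z).1) : False := by
  have hi1 : ∀ z w, (Φ z).1 = (Φ w).1 → z = w := by
    intro z w h
    apply hi
    refine Prod.ext h ?_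
    rw [hr z, hr w, h]
  have hd1 : Differentiable ℂ (fun z : ℂ × ℂ => (Φ z).1) := hd.fst
  set g : ℂ → ℂ := fun z => (Φ (z, 0)).1 with hg
  have hgd : Differentiable ℂ g := by
    have : Differentiable ℂ (fun z : ℂ => ((z, 0) : ℂ × ℂ)) := by fun_prop
    exact hd1.comp this
  have hga : AnalyticAt ℂ g 0 := hgd.analyticAt 0
  rcases hga.eventually_constant_or_nhds_le_map_nhds with h | h
  · have h1 : ∀ᶠ z in 𝓝[≠] (0 : ℂ), g z = g 0 := h.filter_mono nhdsWithin_le_nhds
    have h2 : ∀ᶠ z in 𝓝[≠] (0 : ℂ), z ≠ 0 := eventually_mem_nhdsWithin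
    obtain ⟨z, hz1, hz2⟩ := (h1.and h2).exists
    have := hi1 (z, 0) (0, 0) hz1
    exact hz2 (by simpa using congrArg Prod.fst this)
  · have hrange : Set.range g ∈ 𝓝 (g 0) := h (by
      rw [mem_map]
      exact Filter.mem_of_superset univ_mem (fun z _ => Set.mem_range_self z))
    have hc : Continuous (fun w : ℂ => (Φ (0, w)).1) := by
      have : Continuous (fun w : ℂ => ((0, w) : ℂ × ℂ)) := by fun_prop
      exact hd1.continuous.comp this
    have h1 : ∀ᶠ w in 𝓝 (0 : ℂ), (Φ (0, w)).1 ∈ Set.range g :=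
      hc.continuousAt.eventually_mem hrange
    have h1' : ∀ᶠ w in 𝓝[≠] (0 : ℂ), (Φ (0, w)).1 ∈ Set.range g :=
      h1.filter_mono nhdsWithin_le_nhds
    have h2 : ∀ᶠ z in 𝓝[≠] (0 : ℂ), z ≠ 0 := eventually_mem_nhdsWithin
    obtain ⟨w, ⟨z, hz⟩, hw2⟩ := (h1'.and h2).exists
    have := hi1 (z, 0) (0, w) hz
    exact hw2 (by simpa using (congrArg Prod.snd this).symm)

/-- The linear part: `A = c (1 + K (a, b)ᵗ (-b, a))`. -/
def lin (c K a b : ℂ) (w : ℂ × ℂ) : ℂ × ℂ :=
  (c * (w.1 + K * a * (-b * w.1 + a * w.2)), c * (w.2 + K * b * (-b * w.1 + a * w.2)))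

theorem lin_inv (c K a b : ℂ) (hc : c ≠ 0) (w : ℂ × ℂ) :
    lin c⁻¹ (-K) a b (lin c K a b w) = w := by
  refine Prod.ext ?_ ?_
  · simp only [lin]
    field_simp
    ring
  · simp only [lin]
    field_simp
    ring

theorem lin_inv' (c K a b : ℂ) (hc : c ≠ 0) (w : ℂ × ℂ) :
    lin c K a b (lin c⁻¹ (-K) a b w) = w := by
  have := lin_inv c⁻¹ (-K) a b (inv_ne_zero hc) w
  rwa [inv_inv, neg_neg] at this

theorem lin_eig (c K a b μ : ℂ) (w : ℂ × ℂ) (hw : w ≠ 0)
    (h : lin c K a b w = μ • w) : μ = c := by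
  have h1 : c * (w.1 + K * a * (-b * w.1 + a * w.2)) = μ * w.1 := congrArg Prod.fst h
  have h2 : c * (w.2 + K * b * (-b * w.1 + a * w.2)) = μ * w.2 := congrArg Prod.snd h
  -- the functional `s = -b x + a y` is multiplied by `c`
  have h3 : (μ - c) * (-b * w.1 + a * w.2) = 0 := by linear_combination b * h1 - a * h2
  rcases mul_eq_zero.mp h3 with h4 | h4
  · exact sub_eq_zero.mp h4
  · have h5 : (μ - c) * w.1 = 0 := by linear_combination -h1 + c * K * a * h4
    have h6 : (μ - c) * w.2 = 0 := by linear_combination -h2 + c * K * b * h4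
    by_contra hne
    have h7 : μ - c ≠ 0 := sub_ne_zero.mpr hne
    have h8 : w.1 = 0 := by simpa [h7] using h5
    have h9 : w.2 = 0 := by simpa [h7] using h6
    exact hw (Prod.ext h8 h9)

end Pool.Agent.SkewBasin
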