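import Mathlib
import Pool.Agent.SkewBasin.Proof

set_option autoImplicit false

open Filter Topology Function

namespace Pool.Agent.Results.MP_e40659_an.PointwiseAttraction

/-- The skew product `F(z₁, w) = (z₁ ^ d, G_{z₁}(w))` on `ℂ³ = ℂ × ℂ²`. -/
def skew (d : ℕ) (G : ℂ → ℂ × ℂ → ℂ × ℂ) (z : ℂ × (ℂ × ℂ)) : ℂ × (ℂ × ℂ) :=
  (z.1 ^ d, G z.1 z.2)

/-- `f` is a holomorphic automorphism of `ℂ²`. -/
def IsAutomorphism (f : ℂ × ℂ → ℂ × ℂ) : Prop :=
  Differentiable ℂ f ∧ ∃ g : ℂ × ℂ → ℂ × ℂ, Differentiable ℂ g ∧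
    (∀ w, g (f w) = w) ∧ ∀ w, f (g w) = w

/-- The stable manifold of `p = (p₁, 0, 0)` in the fibre over `p₁`: the set of all `w ∈ ℂ²` with
`‖Fⁿ(p₁, w) - Fⁿ(p)‖ → 0`. -/
def stableManifold (d : ℕ) (G : ℂ → ℂ × ℂ → ℂ × ℂ) (p₁ : ℂ) : Set (ℂ × ℂ) :=
  {w | Tendsto (fun n : ℕ => ‖(skew d G)^[n] (p₁, w) - (skew d G)^[n] (p₁, 0)‖) atTop (𝓝 0)}

/-- The subset `S` of `ℂ²` is biholomorphic to `ℂ²`: it is the image of an injective holomorphic
map from `ℂ²` to `ℂ²`. -/
def IsBiholomorphicToPlane (S : Set (ℂ × ℂ)) : Prop :=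
  ∃ Φ : ℂ × ℂ → ℂ × ℂ, Differentiable ℂ Φ ∧ Injective Φ ∧ Set.range Φ = S

open Pool.Agent.SkewBasin in
/-- For every `d ≥ 2` and every `ε > 0` there are a map `F(z₁, w) = (z₁ ^ d, G_{z₁}(w))`,
holomorphic on `ℂ³`, and a point `p₁` of the unit circle such that for every `lam` in the unit
circle `G_lam` is a holomorphic automorphism of `ℂ²` fixing the origin, all eigenvalues of
`DG_lam(0)` have modulus less than `ε`, and yet the stable manifold of `(p₁, 0, 0)` is a complex
line through the origin and is not biholomorphic to `ℂ²`. -/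
theorem result (d : ℕ) (hd : 2 ≤ d) (ε : ℝ) (hε : 0 < ε) :
    ∃ (G : ℂ → ℂ × ℂ → ℂ × ℂ) (p₁ : ℂ), ‖p₁‖ = 1 ∧
      Differentiable ℂ (skew d G) ∧
      (∀ lam : ℂ, ‖lam‖ = 1 → IsAutomorphism (G lam) ∧ G lam 0 = 0 ∧
        ∀ (μ : ℂ) (w : ℂ × ℂ), w ≠ 0 → fderiv ℂ (G lam) 0 w = μ • w → ‖μ‖ < ε) ∧
      (∃ v : ℂ × ℂ, v ≠ 0 ∧ stableManifold d G p₁ = {w | ∃ t : ℂ, w = t • v}) ∧
      ¬ IsBiholomorphicToPlane (stableManifold d G p₁) := by
  -- the constants
  set r : ℝ := min (ε / 2) (1 / 2) with hr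
  have hr0 : 0 < r := lt_min (by linarith) (by norm_num)
  have hrε : r < ε := lt_of_le_of_lt (min_le_left _ _) (by linarith)
  have hr1 : r < 1 := lt_of_le_of_lt (min_le_right _ _) (by norm_num)
  set c : ℂ := (r : ℂ) with hcdef
  have hc : c ≠ 0 := by rw [hcdef]; exact_mod_cast hr0.ne'
  have hcn : ‖c‖ = r := by rw [hcdef, Complex.norm_real, Real.norm_of_nonneg hr0.le]
  set K : ℂ := (c ^ 2 + 4) / (2 * c) with hK
  -- the periodic point of period two
  set N : ℕ := d ^ 2 - 1 with hN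
  have hd2 : 4 ≤ d ^ 2 := by nlinarith
  have hN0 : N ≠ 0 := by omega
  set ω : ℂ := Complex.exp (2 * Real.pi * Complex.I / N) with hω
  have hprim : IsPrimitiveRoot ω N := Complex.isPrimitiveRoot_exp N hN0
  have hωN : ω ^ N = 1 := hprim.pow_eq_one
  have hω1 : ‖ω‖ = 1 := hprim.norm'_eq_one hN0
  set ω' : ℂ := ω ^ d with hω'
  have hωω' : ω' ^ d = ω := by
    rw [hω', ← pow_mul]
    have : d * d = N + 1 := by
      have : d * d = d ^ 2 := by ring
      omega
    rw [this, pow_succ, hωN, one_mul]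
  have hne : ω ≠ ω' := by
    intro h
    have h0 : ω ≠ 0 := by
      intro h0
      rw [h0, norm_zero] at hω1
      exact zero_ne_one hω1
    have h1 : ω ^ (d - 1) = 1 := by
      have h2 : ω * ω ^ (d - 1) = ω * 1 := by
        rw [← pow_succ', mul_one, Nat.sub_add_cancel (by omega : 1 ≤ d)]
        exact h.symm
      exact mul_left_cancel₀ h0 h2
    have h2 : N ∣ d - 1 := hprim.dvd_of_pow_eq_one _ h1
    have h3 : N ≤ d - 1 := Nat.le_of_dvd (by omega) h2
    have h4 : d ^ 2 ≤ d := by omega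
    nlinarith
  have hsub : ω - ω' ≠ 0 := sub_ne_zero.mpr hne
  have hsub' : ω' - ω ≠ 0 := sub_ne_zero.mpr hne.symm
  set a : ℂ → ℂ := fun l => (l - ω') / (ω - ω') with ha
  set b : ℂ → ℂ := fun l => (l - ω) / (ω' - ω) with hb
  have ha1 : a ω = 1 := div_self hsub
  have ha2 : a ω' = 0 := by simp [ha]
  have hb1 : b ω = 0 := by simp [hb]
  have hb2 : b ω' = 1 := div_self hsub'
  have had : Differentiable ℂ a := by fun_prop
  have hbd : Differentiable ℂ b := by fun_prop
  set G : ℂ → ℂ × ℂ → ℂ × ℂ := fun l w => lin c K (a l) (b l) w with hG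
  have hlind : ∀ c K a b : ℂ, Differentiable ℂ (lin c K a b) := by
    intro c K a b
    unfold lin
    fun_prop
  have hlin0 : ∀ c K a b : ℂ, lin c K a b 0 = 0 := by
    intro c K a b
    simp [lin]
  have hsmul : ∀ (c K a b t : ℂ) (w : ℂ × ℂ), lin c K a b (t • w) = t • lin c K a b w := by
    intro c K a b t w
    refine Prod.ext ?_ ?_
    · simp only [lin, Prod.smul_fst, Prod.smul_snd, smul_eq_mul]
      ring
    · simp only [lin, Prod.smul_fst, Prod.smul_snd, smul_eq_mul]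
      ring
  have hadd : ∀ (c K a b : ℂ) (v w : ℂ × ℂ),
      lin c K a b (v + w) = lin c K a b v + lin c K a b w := by
    intro c K a b v w
    refine Prod.ext ?_ ?_
    · simp only [lin, Prod.fst_add, Prod.snd_add]
      ring
    · simp only [lin, Prod.fst_add, Prod.snd_add]
      ring
  have hfd : ∀ c K a b : ℂ, ∀ w, fderiv ℂ (lin c K a b) 0 w = lin c K a b w := by
    intro c K a b w
    let L : (ℂ × ℂ) →ₗ[ℂ] (ℂ × ℂ) :=
      { toFun := lin c K a b
        map_add' := hadd c K a b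
        map_smul' := fun t w => hsmul c K a b t w }
    have h1 : HasFDerivAt (lin c K a b) L.toContinuousLinearMap 0 :=
      L.toContinuousLinearMap.hasFDerivAt
    rw [h1.fderiv]
    rfl
  -- two steps of the dynamics
  set B : ℂ × ℂ → ℂ × ℂ := fun w => lin c K 0 1 (lin c K 1 0 w) with hB
  have hstep1 : ∀ w, skew d G (ω, w) = (ω', lin c K 1 0 w) := by
    intro w
    simp only [skew, hG, ha1, hb1, hω']
  have hstep2 : ∀ w, skew d G (ω', w) = (ω, lin c K 0 1 w) := by
    intro w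
    simp only [skew, hG, ha2, hb2, hωω']
  have htwo : ∀ w, (skew d G)^[2] (ω, w) = (ω, B w) := by
    intro w
    simp only [iterate_succ, iterate_zero, comp_apply, id, hstep1, hstep2, hB]
  have hEven : ∀ (k : ℕ) (w : ℂ × ℂ), (skew d G)^[2 * k] (ω, w) = (ω, B^[k] w) := by
    intro k
    induction k with
    | zero => intro w; rfl
    | succ k ih =>
      intro w
      rw [show 2 * (k + 1) = 2 * k + 2 by ring, iterate_add_apply, htwo, ih,
        iterate_succ_apply]
  have hOdd : ∀ (k : ℕ) (w : ℂ × ℂ),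
      (skew d G)^[2 * k + 1] (ω, w) = (ω', lin c K 1 0 (B^[k] w)) := by
    intro k w
    rw [iterate_succ_apply', hEven, hstep1]
  have hB0 : ∀ k : ℕ, B^[k] 0 = 0 := by
    intro k
    induction k with
    | zero => rfl
    | succ k ih =>
      rw [iterate_succ_apply', ih]
      simp only [hB, hlin0]
  -- the unstable functional
  have hell : ∀ w : ℂ × ℂ, c / 2 * (B w).1 + (B w).2 = -4 * (c / 2 * w.1 + w.2) := by
    intro w
    simp only [hB, lin, hK]
    field_simp
    ring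
  have hellk : ∀ (k : ℕ) (w : ℂ × ℂ),
      c / 2 * (B^[k] w).1 + (B^[k] w).2 = (-4) ^ k * (c / 2 * w.1 + w.2) := by
    intro k w
    induction k with
    | zero => simp
    | succ k ih =>
      rw [iterate_succ_apply', hell, ih]
      ring
  set v : ℂ × ℂ := (1, -(c / 2)) with hv
  have hv0 : v ≠ 0 := by
    intro h
    exact one_ne_zero (congrArg Prod.fst h)
  have hBv : B v = (-(c ^ 4 / 4)) • v := by
    refine Prod.ext ?_ ?_
    · simp only [hB, lin, hK, hv, Prod.smul_fst, smul_eq_mul]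
      field_simp
      ring
    · simp only [hB, lin, hK, hv, Prod.smul_snd, smul_eq_mul]
      field_simp
      ring
  have hBsmul : ∀ (t : ℂ) (w : ℂ × ℂ), B (t • w) = t • B w := by
    intro t w
    simp only [hB, hsmul]
  have hBkv : ∀ (k : ℕ) (t : ℂ), B^[k] (t • v) = (-(c ^ 4 / 4)) ^ k • (t • v) := by
    intro k t
    induction k with
    | zero => simp
    | succ k ih =>
      rw [iterate_succ_apply', ih, hBsmul, hBsmul, hBv, smul_comm t, ← smul_assoc, pow_succ]
      rfl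
  have hline : stableManifold d G ω = {w | ∃ t : ℂ, w = t • v} := by
    ext w
    constructor
    · intro h
      have h1 : Tendsto (fun n : ℕ => ‖(skew d G)^[n] (ω, w) - (skew d G)^[n] (ω, 0)‖) atTop
          (𝓝 0) := h
      have h2 : Tendsto (fun k : ℕ => 2 * k) atTop atTop :=
        tendsto_id.const_mul_atTop' (by norm_num)
      have h3 := h1.comp h2
      have h4 : Tendsto (fun k : ℕ => (‖c / 2‖ + 1) *
          ‖(skew d G)^[2 * k] (ω, w) - (skew d G)^[2 * k] (ω, 0)‖) atTop (𝓝 0) := by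
        simpa using h3.const_mul (‖c / 2‖ + 1)
      have h5 : ∀ k : ℕ, ‖c / 2 * w.1 + w.2‖ ≤ (‖c / 2‖ + 1) *
          ‖(skew d G)^[2 * k] (ω, w) - (skew d G)^[2 * k] (ω, 0)‖ := by
        intro k
        rw [hEven, hEven, hB0]
        have e1 : ((ω, B^[k] w) : ℂ × ℂ × ℂ) - (ω, 0) = (0, B^[k] w) := by
          refine Prod.ext ?_ ?_ <;> simp
        rw [e1]
        have e2 : ‖((0 : ℂ), B^[k] w)‖ = ‖B^[k] w‖ := by
          rw [Prod.norm_def]
          simp
        rw [e2]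
        have e3 : ‖c / 2 * w.1 + w.2‖ ≤ ‖c / 2 * (B^[k] w).1 + (B^[k] w).2‖ := by
          rw [hellk, norm_mul, norm_pow, norm_neg]
          have : (1 : ℝ) ≤ ‖(4 : ℂ)‖ ^ k := one_le_pow₀ (by norm_num)
          nlinarith [norm_nonneg (c / 2 * w.1 + w.2)]
        refine e3.trans ((norm_add_le _ _).trans ?_)
        rw [norm_mul]
        have e4 : ‖(B^[k] w).1‖ ≤ ‖B^[k] w‖ := norm_fst_le _
        have e5 : ‖(B^[k] w).2‖ ≤ ‖B^[k] w‖ := norm_snd_le _
        nlinarith [norm_nonneg (c / 2)]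
      have h6 : ‖c / 2 * w.1 + w.2‖ ≤ 0 := ge_of_tendsto' h4 h5
      have h7 : c / 2 * w.1 + w.2 = 0 := norm_le_zero_iff.mp h6
      refine ⟨w.1, Prod.ext ?_ ?_⟩
      · simp [hv]
      · simp only [hv, Prod.smul_snd, smul_eq_mul]
        linear_combination h7
    · rintro ⟨t, rfl⟩
      change Tendsto (fun n : ℕ => ‖(skew d G)^[n] (ω, t • v) - (skew d G)^[n] (ω, 0)‖) atTop
          (𝓝 0)
      set M : ℝ := ‖t • v‖ + ‖lin c K 1 0 (t • v)‖ with hM
      have hq : ‖-(c ^ 4 / 4)‖ = r ^ 4 / 4 := by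
        rw [norm_neg, norm_div, norm_pow, hcn]
        norm_num
      have hq0 : 0 ≤ r ^ 4 / 4 := by positivity
      have hq1 : r ^ 4 / 4 < 1 := by
        have : r ^ 4 ≤ 1 := pow_le_one₀ hr0.le hr1.le
        linarith
      have hbound : ∀ n : ℕ, ‖(skew d G)^[n] (ω, t • v) - (skew d G)^[n] (ω, 0)‖ ≤
          M * (r ^ 4 / 4) ^ (n / 2) := by
        intro n
        rcases Nat.even_or_odd' n with ⟨k, rfl | rfl⟩
        · rw [hEven, hEven, hB0, hBkv]
          have e1 : ((ω, (-(c ^ 4 / 4)) ^ k • (t • v)) : ℂ × ℂ × ℂ) - (ω, 0) =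
              (0, (-(c ^ 4 / 4)) ^ k • (t • v)) := by
            refine Prod.ext ?_ ?_ <;> simp
          have e2 : ‖((0 : ℂ), (-(c ^ 4 / 4)) ^ k • (t • v))‖ =
              ‖(-(c ^ 4 / 4)) ^ k • (t • v)‖ := by
            rw [Prod.norm_def]
            simp
          rw [e1, e2, norm_smul, norm_pow, hq, Nat.mul_div_cancel_left k (by norm_num : 0 < 2),
            mul_comm]
          refine mul_le_mul_of_nonneg_right ?_ (by positivity)
          rw [hM]
          linarith [norm_nonneg (lin c K 1 0 (t • v))]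
        · rw [hOdd, hOdd, hB0, hlin0, hBkv, hsmul]
          have e1 : ((ω', (-(c ^ 4 / 4)) ^ k • lin c K 1 0 (t • v)) : ℂ × ℂ × ℂ) - (ω', 0) =
              (0, (-(c ^ 4 / 4)) ^ k • lin c K 1 0 (t • v)) := by
            refine Prod.ext ?_ ?_ <;> simp
          have e2 : ‖((0 : ℂ), (-(c ^ 4 / 4)) ^ k • lin c K 1 0 (t • v))‖ =
              ‖(-(c ^ 4 / 4)) ^ k • lin c K 1 0 (t • v)‖ := by
            rw [Prod.norm_def]
            simp
          have e3 : (2 * k + 1) / 2 = k := by omega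
          rw [e1, e2, norm_smul, norm_pow, hq, e3, mul_comm]
          refine mul_le_mul_of_nonneg_right ?_ (by positivity)
          rw [hM]
          linarith [norm_nonneg (t • v)]
      have hlim : Tendsto (fun n : ℕ => M * (r ^ 4 / 4) ^ (n / 2)) atTop (𝓝 0) := by
        have h1 : Tendsto (fun n : ℕ => (r ^ 4 / 4) ^ (n / 2)) atTop (𝓝 0) :=
          (tendsto_pow_atTop_nhds_zero_of_lt_one hq0 hq1).comp
            (Nat.tendsto_div_const_atTop (by norm_num : (2 : ℕ) ≠ 0))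
        simpa using h1.const_mul M
      exact squeeze_zero (fun n => norm_nonneg _) hbound hlim
  refine ⟨G, ω, hω1, ?_, ?_, ⟨v, hv0, hline⟩, ?_⟩
  · unfold skew
    simp only [hG, lin]
    fun_prop
  · intro lam _
    refine ⟨⟨hlind _ _ _ _, lin c⁻¹ (-K) (a lam) (b lam), hlind _ _ _ _,
      lin_inv c K (a lam) (b lam) hc, lin_inv' c K (a lam) (b lam) hc⟩, hlin0 _ _ _ _, ?_⟩
    intro μ w hw h
    have h1 : lin c K (a lam) (b lam) w = μ • w := by
      rw [← hfd]
      exact h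
    rw [lin_eig c K (a lam) (b lam) μ w hw h1, hcn]
    exact hrε
  · rintro ⟨Φ, hΦd, hΦi, hΦr⟩
    refine no_injective_into_line (-(c / 2)) Φ hΦd hΦi ?_
    intro z
    have h1 : Φ z ∈ stableManifold d G ω := by
      rw [← hΦr]
      exact Set.mem_range_self z
    rw [hline] at h1
    obtain ⟨t, ht⟩ := h1
    rw [ht]
    simp only [hv, Prod.smul_fst, Prod.smul_snd, smul_eq_mul]
    ring

end Pool.Agent.Results.MP_e40659_an.PointwiseAttraction
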